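import Pool.Agent.W792.GK.Stm

/-! # A symmetric function on the torus with semicircle distribution (GK-SY1) -/

set_option autoImplicit false

namespace Pool.Agent.W338.GK.Sy1

open MeasureTheory Set Real Pool.Agent.W792.GK

noncomputable section

/-! ## The angle function -/

/-- the distribution function of the angle -/
def tf (x : ℝ) : ℝ := (x - sin x * cos x) / π

lemma tf_deriv (x : ℝ) : HasDerivAt tf (2 * sin x ^ 2 / π) x := by
  have h1 : HasDerivAt (fun x : ℝ => (x - sin x * cos x) / π)
      ((1 - (cos x * cos x + sin x * (-sin x))) / π) x :=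
    ((hasDerivAt_id x).sub ((hasDerivAt_sin x).mul (hasDerivAt_cos x))).div_const π
  have h2 : 1 - (cos x * cos x + sin x * (-sin x)) = 2 * sin x ^ 2 := by
    nlinarith [sin_sq_add_cos_sq x]
  rw [h2] at h1
  exact h1

lemma tf_cont : Continuous tf := continuous_iff_continuousAt.2 fun x => (tf_deriv x).continuousAt

lemma tf_mono : StrictMono tf := by
  intro x y hxy
  have h1 : sin y * cos y - sin x * cos x = sin (y - x) * cos (y + x) := by
    rw [sin_sub, cos_add]
    have hx := sin_sq_add_cos_sq x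
    have hy := sin_sq_add_cos_sq y
    linear_combination (-(sin y * cos y)) * hx + (sin x * cos x) * hy
  have h2 : |sin (y - x) * cos (y + x)| < y - x := by
    rw [abs_mul]
    have h3 : |sin (y - x)| < |y - x| := sq_lt_sq.1 (sin_sq_lt_sq (by linarith : y - x ≠ 0))
    rw [abs_of_pos (sub_pos.2 hxy)] at h3
    have h4 := abs_cos_le_one (y + x)
    have h5 := abs_nonneg (sin (y - x))
    nlinarith
  have h3 := (abs_lt.1 h2).2
  unfold tf
  apply div_lt_div_of_pos_right _ pi_pos
  linarith

lemma tf_surj : Function.Surjective tf := by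
  have hb : ∀ x : ℝ, |sin x * cos x| ≤ 1 := by
    intro x
    rw [abs_mul]
    exact mul_le_one₀ (abs_sin_le_one x) (abs_nonneg _) (abs_cos_le_one x)
  refine tf_cont.surjective ?_ ?_
  · refine Filter.tendsto_atTop_mono (f := fun x => (x - 1) / π) (fun x => ?_) ?_
    · unfold tf
      apply div_le_div_of_nonneg_right _ pi_pos.le
      have := (abs_le.1 (hb x)).2
      linarith
    · exact (Filter.tendsto_atTop_add_const_right _ (-1) Filter.tendsto_id).atTop_div_const pi_pos
  · refine Filter.tendsto_atBot_mono (f := fun x => (x + 1) / π) (fun x => ?_) ?_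
    · unfold tf
      apply div_le_div_of_nonneg_right _ pi_pos.le
      have := (abs_le.1 (hb x)).1
      linarith
    · exact (Filter.tendsto_atBot_add_const_right _ 1 Filter.tendsto_id).atBot_div_const pi_pos

/-- the inverse -/
def ps : ℝ ≃o ℝ := (tf_mono.orderIsoOfSurjective tf tf_surj).symm

lemma ps_cont : Continuous ps := ps.continuous

lemma ps_tf (x : ℝ) : ps (tf x) = x :=
  (tf_mono.orderIsoOfSurjective tf tf_surj).symm_apply_apply x

lemma tf_ps (x : ℝ) : tf (ps x) = x :=
  (tf_mono.orderIsoOfSurjective tf tf_surj).apply_symm_apply x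

lemma tf_add (x : ℝ) : tf (x + 2 * π) = tf x + 2 := by
  unfold tf
  rw [sin_add_two_pi, cos_add_two_pi]
  field_simp
  ring

lemma ps_add (x : ℝ) : ps (x + 2) = ps x + 2 * π := by
  rw [← ps_tf (ps x + 2 * π), tf_add, tf_ps]

/-! ## The semicircle law on the circle -/

/-- the function on the line -/
def g0 (s : ℝ) (x : ℝ) : ℝ := 2 * s * cos (ps (2 * x))

lemma g0_per (s : ℝ) : Function.Periodic (g0 s) 1 := by
  intro x
  unfold g0
  rw [mul_add, mul_one, ps_add, cos_add_two_pi]

/-- the function on the circle -/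
def g (s : ℝ) : UnitAddCircle → ℝ := (g0_per s).lift

lemma g_coe (s x : ℝ) : g s (x : UnitAddCircle) = g0 s x := (g0_per s).lift_coe x

lemma g0_cont (s : ℝ) : Continuous (g0 s) :=
  continuous_const.mul (continuous_cos.comp (ps_cont.comp (continuous_const.mul continuous_id)))

lemma g_cont (s : ℝ) : Continuous (g s) := (g0_cont s).quotient_liftOn' _

lemma g_bd {s : ℝ} (hs : 0 < s) (x : UnitAddCircle) : |g s x| ≤ 2 * s := by
  induction x using QuotientAddGroup.induction_on with
  | H x =>
    have : g s (x : UnitAddCircle) = g0 s x := g_coe s x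
    rw [this]
    unfold g0
    rw [abs_mul, abs_of_pos (by positivity : (0 : ℝ) < 2 * s)]
    exact mul_le_of_le_one_right (by positivity) (abs_cos_le_one _)

lemma ch_cont (c : ℝ) (n : ℕ) : Continuous fun x : ℝ => ch c x n := by
  have : ∀ n, (Continuous fun x : ℝ => ch c x n) ∧ (Continuous fun x : ℝ => ch c x (n + 1)) := by
    intro n
    induction n with
    | zero => exact ⟨continuous_const, continuous_id⟩
    | succ n ih =>
      refine ⟨ih.2, ?_⟩
      show Continuous fun x : ℝ => x * ch c x (n + 1) - c • ch c x n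
      exact (continuous_id.mul ih.2).sub (ih.1.const_smul c)
  exact (this n).1

lemma ch_sin (s x : ℝ) (n : ℕ) :
    ch (s ^ 2) (2 * s * cos x) n * sin x = s ^ n * sin ((n + 1 : ℕ) * x) := by
  have : ∀ n : ℕ, ch (s ^ 2) (2 * s * cos x) n * sin x = s ^ n * sin ((n + 1 : ℕ) * x) ∧
      ch (s ^ 2) (2 * s * cos x) (n + 1) * sin x = s ^ (n + 1) * sin ((n + 1 + 1 : ℕ) * x) := by
    intro n
    induction n with
    | zero =>
      refine ⟨by simp [ch], ?_⟩
      have h1 : ((0 + 1 + 1 : ℕ) : ℝ) * x = 2 * x := by norm_num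
      rw [h1, sin_two_mul]
      simp only [ch]
      ring
    | succ n ih =>
      refine ⟨ih.2, ?_⟩
      have h1 : ch (s ^ 2) (2 * s * cos x) (n + 1 + 1) =
        2 * s * cos x * ch (s ^ 2) (2 * s * cos x) (n + 1) -
          s ^ 2 * ch (s ^ 2) (2 * s * cos x) n := rfl
      have h4 : ∀ A B C D E : ℝ, (A * B - C * D) * E = A * (B * E) - C * (D * E) := by
        intros
        ring
      rw [h1, h4, ih.2, ih.1]
      have h2 : ((n + 1 + 1 + 1 : ℕ) : ℝ) * x = (n + 1 + 1 : ℕ) * x + x := by push_cast; ring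
      have h3 : ((n + 1 : ℕ) : ℝ) * x = (n + 1 + 1 : ℕ) * x - x := by push_cast; ring
      rw [h2, h3, sin_add, sin_sub]
      ring
  exact (this n).1

lemma int_cos (m : ℕ) (hm : 1 ≤ m) : ∫ x in (0 : ℝ)..(2 * π), cos (m * x) = 0 := by
  have hm0 : (m : ℝ) ≠ 0 := by positivity
  rw [intervalIntegral.integral_comp_mul_left (fun x => cos x) hm0, integral_cos, mul_zero,
    sin_zero, sub_zero, ← mul_assoc, mul_comm (m : ℝ) 2]
  have h1 : sin (2 * (m : ℝ) * π) = 0 := by
    have := sin_nat_mul_pi (2 * m)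
    push_cast at this
    exact this
  rw [h1, smul_zero]

lemma int_sin (n : ℕ) (hn : 1 ≤ n) :
    ∫ x in (0 : ℝ)..(2 * π), sin ((n + 1 : ℕ) * x) * sin x = 0 := by
  have h1 : ∀ x : ℝ, sin ((n + 1 : ℕ) * x) * sin x =
      2⁻¹ * cos (n * x) - 2⁻¹ * cos ((n + 2 : ℕ) * x) := by
    intro x
    have h2 : (n : ℝ) * x = (n + 1 : ℕ) * x - x := by push_cast; ring
    have h3 : ((n + 2 : ℕ) : ℝ) * x = (n + 1 : ℕ) * x + x := by push_cast; ring
    rw [h2, h3, cos_sub, cos_add]
    ring
  simp_rw [h1]
  rw [intervalIntegral.integral_sub, intervalIntegral.integral_const_mul,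
    intervalIntegral.integral_const_mul, int_cos n hn, int_cos (n + 2) (by omega)]
  · simp
  · exact (by fun_prop : Continuous fun x : ℝ => 2⁻¹ * cos (n * x)).intervalIntegrable _ _
  · exact (by fun_prop : Continuous fun x : ℝ => 2⁻¹ * cos ((n + 2 : ℕ) * x)).intervalIntegrable _ _

/-- the moments on the circle -/
lemma int_g (s : ℝ) (n : ℕ) (hn : 1 ≤ n) :
    ∫ x : UnitAddCircle, ch (s ^ 2) (g s x) n = 0 := by
  rw [← UnitAddCircle.intervalIntegral_preimage 0]
  simp_rw [g_coe]
  rw [zero_add]
  have h1 : ∫ x in (0 : ℝ)..1, ch (s ^ 2) (g0 s x) n =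
      ∫ x in (0 : ℝ)..1, (fun u => ch (s ^ 2) (2 * s * cos (ps u)) n) (2 * x) := rfl
  rw [h1, intervalIntegral.integral_comp_mul_left
    (fun u => ch (s ^ 2) (2 * s * cos (ps u)) n) (two_ne_zero)]
  have h2 : ∫ x in (0 : ℝ)..(2 * π),
      ((fun u => ch (s ^ 2) (2 * s * cos (ps u)) n) ∘ tf) x * (2 * sin x ^ 2 / π) =
      ∫ u in tf 0..tf (2 * π), (fun u => ch (s ^ 2) (2 * s * cos (ps u)) n) u :=
    intervalIntegral.integral_comp_mul_deriv (fun x _ => tf_deriv x)
      (by fun_prop) ((ch_cont _ n).comp (continuous_const.mul (continuous_cos.comp ps_cont)))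
  have h3 : tf 0 = 0 := by simp [tf]
  have h4 : tf (2 * π) = 2 := by
    have := tf_add 0
    rwa [zero_add, h3, zero_add] at this
  rw [h3, h4] at h2
  rw [mul_zero, mul_one, ← h2]
  have h5 : ∀ x : ℝ, ((fun u => ch (s ^ 2) (2 * s * cos (ps u)) n) ∘ tf) x * (2 * sin x ^ 2 / π) =
      (2 / π * s ^ n) * (sin ((n + 1 : ℕ) * x) * sin x) := by
    intro x
    simp only [Function.comp]
    rw [ps_tf]
    have := ch_sin s x n
    calc ch (s ^ 2) (2 * s * cos x) n * (2 * sin x ^ 2 / π)
        = (2 / π) * (ch (s ^ 2) (2 * s * cos x) n * sin x) * sin x := by ring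
      _ = _ := by rw [this]; ring
  simp_rw [h5]
  rw [intervalIntegral.integral_const_mul, int_sin n hn, mul_zero, smul_zero]

/-! ## The symmetric map to the circle -/

/-- Haar measure -/
abbrev mu : Measure UnitAddCircle := AddCircle.haarAddCircle

lemma int_mu {E : Type*} [NormedAddCommGroup E] [NormedSpace ℝ E] (f : UnitAddCircle → E) :
    ∫ x, f x ∂mu = ∫ x, f x := by
  rw [AddCircle.integral_haarAddCircle, inv_one, one_smul]

/-- folding of the circle -/
def fo (x : UnitAddCircle) : UnitAddCircle := ((2 * ‖x‖ : ℝ) : UnitAddCircle)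

lemma fo_cont : Continuous fo :=
  (AddCircle.continuous_mk' 1).comp (continuous_const.mul continuous_norm)

lemma fo_coe (x : ℝ) (hx : |x| ≤ 1 / 2) : fo (x : UnitAddCircle) = ((2 * |x| : ℝ) : UnitAddCircle) := by
  unfold fo
  rw [(AddCircle.norm_coe_eq_abs_iff 1 one_ne_zero).2 (by rw [abs_one]; exact hx)]

lemma int_fo (f : UnitAddCircle → ℝ) (hf : Continuous f) :
    ∫ x : UnitAddCircle, f (fo x) = ∫ x : UnitAddCircle, f x := by
  rw [← UnitAddCircle.intervalIntegral_preimage (-(1 / 2)),
    ← UnitAddCircle.intervalIntegral_preimage 0]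
  have hc : Continuous fun x : ℝ => f (fo (x : UnitAddCircle)) :=
    hf.comp (fo_cont.comp (AddCircle.continuous_mk' 1))
  rw [← intervalIntegral.integral_add_adjacent_intervals (b := 0) (hc.intervalIntegrable _ _)
    (hc.intervalIntegrable _ _)]
  have h1 : ∫ x in (-(1 / 2) : ℝ)..0, f (fo (x : UnitAddCircle)) =
      ∫ x in (-(1 / 2) : ℝ)..0, (fun y : ℝ => f (y : UnitAddCircle)) (-2 * x) := by
    refine intervalIntegral.integral_congr fun x hx => ?_
    rw [uIcc_of_le (by norm_num)] at hx
    have h2 : |x| ≤ 1 / 2 := by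
      rw [abs_of_nonpos hx.2]
      linarith [hx.1]
    simp only []
    rw [fo_coe x h2, abs_of_nonpos hx.2]
    congr 2
    ring
  have h2 : ∫ x in (0 : ℝ)..(-(1 / 2) + 1), f (fo (x : UnitAddCircle)) =
      ∫ x in (0 : ℝ)..(-(1 / 2) + 1), (fun y : ℝ => f (y : UnitAddCircle)) (2 * x) := by
    refine intervalIntegral.integral_congr fun x hx => ?_
    rw [uIcc_of_le (by norm_num)] at hx
    have h2 : |x| ≤ 1 / 2 := by
      rw [abs_of_nonneg hx.1]
      linarith [hx.2]
    simp only []
    rw [fo_coe x h2, abs_of_nonneg hx.1]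
  rw [h1, h2, intervalIntegral.integral_comp_mul_left (fun y : ℝ => f (y : UnitAddCircle))
    (by norm_num : (-2 : ℝ) ≠ 0),
    intervalIntegral.integral_comp_mul_left (fun y : ℝ => f (y : UnitAddCircle)) (two_ne_zero)]
  norm_num
  rw [intervalIntegral.integral_symm]
  ring

lemma mp_fo : MeasurePreserving fo mu mu := by
  refine ⟨fo_cont.measurable, ?_⟩
  have : IsProbabilityMeasure (mu.map fo) :=
    Measure.isProbabilityMeasure_map fo_cont.measurable.aemeasurable
  refine ext_of_forall_integral_eq_of_IsFiniteMeasure fun f => ?_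
  rw [integral_map fo_cont.measurable.aemeasurable f.continuous.aestronglyMeasurable, int_mu,
    int_mu, int_fo f f.continuous]

section

variable (ι : Type) [Fintype ι]

/-- the sum -/
def sm : (ι → UnitAddCircle) →+ UnitAddCircle where
  toFun x := ∑ i, x i
  map_zero' := by simp
  map_add' x y := by simp [Finset.sum_add_distrib]

lemma sm_cont : Continuous (sm ι) := by
  show Continuous fun x : ι → UnitAddCircle => ∑ i, x i
  fun_prop

lemma mp_sm [DecidableEq ι] [Nonempty ι] :
    MeasurePreserving (sm ι) (Measure.pi fun _ : ι => mu) mu := by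
  refine (sm ι).measurePreserving (sm_cont ι) ?_ ?_
  · intro x
    obtain ⟨i⟩ := ‹Nonempty ι›
    refine ⟨Pi.single i x, ?_⟩
    show ∑ j, Pi.single i x j = x
    rw [Finset.sum_pi_single', if_pos (Finset.mem_univ _)]
  · rw [measure_univ, measure_univ]

/-- the symmetric map to the circle -/
def mm (x : ι → UnitAddCircle) : UnitAddCircle := sm ι fun i => fo (x i)

lemma mm_cont : Continuous (mm ι) :=
  (sm_cont ι).comp (continuous_pi fun i => fo_cont.comp (continuous_apply i))

lemma mp_mm [DecidableEq ι] [Nonempty ι] :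
    MeasurePreserving (mm ι) (Measure.pi fun _ : ι => mu) mu :=
  (mp_sm ι).comp (measurePreserving_pi _ _ fun _ => mp_fo)

end

theorem main : S_SY1 := by
  intro ι _ _ _ s hs
  refine ⟨⟨fun k => g s (mm ι k), (g_cont s).comp (mm_cont ι)⟩, ⟨?_, ?_⟩, ?_, ?_⟩
  · intro σ k
    show g s (mm ι fun i => k (σ i)) = g s (mm ι k)
    congr 1
    exact Equiv.sum_comp σ fun i => fo (k i)
  · intro i k
    show g s (mm ι (Function.update k i (-(k i)))) = g s (mm ι k)
    congr 1
    refine Finset.sum_congr rfl fun j _ => ?_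
    show fo (Function.update k i (-(k i)) j) = fo (k j)
    by_cases hj : j = i
    · subst hj
      rw [Function.update_self]
      simp only [fo, norm_neg]
    · rw [Function.update_of_ne hj]
  · intro k
    exact g_bd hs _
  · intro n hn
    have h1 : UnitAddTorus.mFourierCoeff
        (fun k : UnitAddTorus ι => ((ch (s ^ 2) (g s (mm ι k)) n : ℝ) : ℂ)) (0 : ι → ℤ) =
        ∫ k, UnitAddTorus.mFourier (-(0 : ι → ℤ)) k • ((ch (s ^ 2) (g s (mm ι k)) n : ℝ) : ℂ)
          ∂(Measure.pi fun _ : ι => mu) := rfl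
    have h2 : Continuous fun x : UnitAddCircle => ch (s ^ 2) (g s x) n :=
      (ch_cont _ n).comp (g_cont s)
    refine h1.trans ?_
    rw [neg_zero, UnitAddTorus.mFourier_zero]
    simp only [ContinuousMap.one_apply, one_smul]
    rw [integral_complex_ofReal]
    rw [← integral_map (f := fun x => ch (s ^ 2) (g s x) n) (mp_mm ι).measurable.aemeasurable
      h2.aestronglyMeasurable, (mp_mm ι).map_eq, int_mu, int_g s n hn, Complex.ofReal_zero]

end

end Pool.Agent.W338.GK.Sy1
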